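import Mathlib

/-!
# The divisor bound
-/

namespace Pool.Agent.Lib.H21AP

open Finset

theorem succ_le_pow {ε : ℝ} (hε : 0 < ε) {p : ℕ} (hp : 2 ≤ p) (a : ℕ) :
    ((a : ℝ) + 1) ≤ (1 + 1 / (ε * Real.log 2)) * (((p ^ a : ℕ) : ℝ) ^ ε) := by
  have hl : 0 < Real.log 2 := Real.log_pos (by norm_num)
  have hel : 0 < ε * Real.log 2 := by positivity
  have h1 : (1 : ℝ) + a * (ε * Real.log 2) ≤ ((p ^ a : ℕ) : ℝ) ^ ε := by
    have h2 : ((2 : ℝ) ^ a) ^ ε ≤ ((p ^ a : ℕ) : ℝ) ^ ε := by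
      apply Real.rpow_le_rpow (by positivity) _ hε.le
      push_cast
      exact pow_le_pow_left₀ (by norm_num) (by exact_mod_cast hp) a
    have h3 : ((2 : ℝ) ^ a) ^ ε = Real.exp (a * (ε * Real.log 2)) := by
      rw [← Real.rpow_natCast, ← Real.rpow_mul (by norm_num), Real.rpow_def_of_pos (by norm_num)]
      congr 1
      ring
    have h4 := Real.add_one_le_exp ((a : ℝ) * (ε * Real.log 2))
    rw [← h3] at h4
    linarith
  have h5 : (1 + 1 / (ε * Real.log 2)) * (1 + a * (ε * Real.log 2)) =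
      a + 1 + (a * (ε * Real.log 2) + 1 / (ε * Real.log 2)) := by
    field_simp
    ring
  have h6 : 0 ≤ (a : ℝ) * (ε * Real.log 2) + 1 / (ε * Real.log 2) := by positivity
  have h7 : (1 + 1 / (ε * Real.log 2)) * (1 + a * (ε * Real.log 2)) ≤
      (1 + 1 / (ε * Real.log 2)) * (((p ^ a : ℕ) : ℝ) ^ ε) :=
    mul_le_mul_of_nonneg_left h1 (by positivity)
  linarith

theorem succ_le_pow_of_large {ε : ℝ} (hε : 0 < ε) {p : ℕ} (hp : (2 : ℝ) ^ (1 / ε) ≤ p) (a : ℕ) :
    ((a : ℝ) + 1) ≤ ((p ^ a : ℕ) : ℝ) ^ ε := by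
  have h1 : (2 : ℝ) ≤ (p : ℝ) ^ ε := by
    have h2 : ((2 : ℝ) ^ (1 / ε)) ^ ε ≤ (p : ℝ) ^ ε :=
      Real.rpow_le_rpow (by positivity) hp hε.le
    rw [← Real.rpow_mul (by norm_num), one_div, inv_mul_cancel₀ hε.ne', Real.rpow_one] at h2
    exact h2
  have h3 : ((p ^ a : ℕ) : ℝ) ^ ε = ((p : ℝ) ^ ε) ^ a := by
    push_cast
    rw [← Real.rpow_natCast, ← Real.rpow_mul (Nat.cast_nonneg p), ← Real.rpow_natCast,
      ← Real.rpow_mul (Nat.cast_nonneg p), mul_comm]
  rw [h3]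
  have h4 : (2 : ℝ) ^ a ≤ ((p : ℝ) ^ ε) ^ a := pow_le_pow_left₀ (by norm_num) h1 a
  have h5 : ((a : ℝ) + 1) ≤ (2 : ℝ) ^ a := by
    have h6 : a + 1 ≤ 2 ^ a := Nat.lt_two_pow_self
    exact_mod_cast h6
  exact h5.trans h4

/-- For every `ε > 0` there is a constant `C` such that every positive integer `n` has at most
`C n ^ ε` divisors. -/
theorem divisor_bound {ε : ℝ} (hε : 0 < ε) : ∃ C : ℝ, 0 < C ∧ ∀ n : ℕ, 1 ≤ n →
    (n.divisors.card : ℝ) ≤ C * (n : ℝ) ^ ε := by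
  obtain ⟨K, hK⟩ : ∃ K : ℝ, K = 1 + 1 / (ε * Real.log 2) := ⟨_, rfl⟩
  have hl : 0 < Real.log 2 := Real.log_pos (by norm_num)
  have hK1 : 1 ≤ K := by
    rw [hK]
    have : 0 < 1 / (ε * Real.log 2) := by positivity
    linarith
  obtain ⟨P, hP⟩ : ∃ P : ℕ, P = ⌈(2 : ℝ) ^ (1 / ε)⌉₊ := ⟨_, rfl⟩
  refine ⟨K ^ P, by positivity, ?_⟩
  intro n hn
  have hn0 : n ≠ 0 := by omega
  rw [Nat.card_divisors hn0]
  push_cast
  have h1 : ∀ p ∈ n.primeFactors, ((n.factorization p : ℝ) + 1) ≤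
      (if p < P then K else 1) * (((p ^ n.factorization p : ℕ) : ℝ) ^ ε) := by
    intro p hp
    have hpp := Nat.prime_of_mem_primeFactors hp
    split_ifs with h
    · rw [hK]
      exact succ_le_pow hε hpp.two_le _
    · rw [one_mul]
      apply succ_le_pow_of_large hε
      have h2 : (2 : ℝ) ^ (1 / ε) ≤ P := by
        rw [hP]
        exact Nat.le_ceil _
      have h3 : (P : ℝ) ≤ p := by exact_mod_cast not_lt.1 h
      linarith
  have h2 : ∏ p ∈ n.primeFactors, ((n.factorization p : ℝ) + 1) ≤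
      ∏ p ∈ n.primeFactors, ((if p < P then K else 1) *
        (((p ^ n.factorization p : ℕ) : ℝ) ^ ε)) :=
    prod_le_prod (fun p _ => by positivity) h1
  refine h2.trans ?_
  rw [prod_mul_distrib]
  have h3 : ∏ p ∈ n.primeFactors, (((p ^ n.factorization p : ℕ) : ℝ) ^ ε) = (n : ℝ) ^ ε := by
    rw [Real.finsetProd_rpow _ _ (fun p _ => Nat.cast_nonneg _)]
    congr 1
    have h4 : n.factorization.prod (fun p a => p ^ a) = n := Nat.prod_factorization_pow_eq_self hn0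
    rw [Finsupp.prod, Nat.support_factorization] at h4
    conv_rhs => rw [← h4]
    push_cast
    rfl
  rw [h3]
  apply mul_le_mul_of_nonneg_right _ (by positivity)
  have h4 : ∏ p ∈ n.primeFactors, (if p < P then K else 1) =
      K ^ (n.primeFactors.filter fun p => p < P).card := by
    rw [prod_ite, prod_const, prod_const_one, mul_one]
  rw [h4]
  apply pow_le_pow_right₀ hK1
  calc (n.primeFactors.filter fun p => p < P).card ≤ (range P).card := by
        apply card_le_card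
        intro p hp
        rw [mem_filter] at hp
        exact mem_range.2 hp.2
    _ = P := card_range P

end Pool.Agent.Lib.H21AP
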