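import Mathlib

/-!
# The union of residue classes is smallest when all the classes contain zero
-/

namespace Pool.Agent.Lib.H21AP

open Finset

/-- The integers below `Q` that lie in the residue class of `a d` modulo `d` for some `d ∈ D`. -/
def cov (Q : ℕ) (D : Finset ℕ) (a : ℕ → ℕ) : Finset ℕ :=
  (range Q).filter fun x => ∃ d ∈ D, x ≡ a d [MOD d]

theorem mem_cov {Q : ℕ} {D : Finset ℕ} {a : ℕ → ℕ} {x : ℕ} :
    x ∈ cov Q D a ↔ x < Q ∧ ∃ d ∈ D, x ≡ a d [MOD d] := by
  simp [cov]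

/-- One prime is treated: the classes can be moved so that the `p`-parts are zero. -/
theorem cov_step {Q : ℕ} (hQ : 0 < Q) {D : Finset ℕ} (hD : ∀ d ∈ D, d ∣ Q) (a : ℕ → ℕ) {p : ℕ}
    (hp : p.Prime) : ∃ a' : ℕ → ℕ, (∀ d ∈ D, p ^ d.factorization p ∣ a' d) ∧
      (∀ d ∈ D, a' d ≡ a d [MOD (d / p ^ d.factorization p)]) ∧
      (cov Q D a').card ≤ (cov Q D a).card := by
  have hD0 : ∀ d ∈ D, d ≠ 0 := by
    rintro d hd rfl
    exact hQ.ne' (Nat.eq_zero_of_zero_dvd (hD 0 hd))
  obtain ⟨P, hP⟩ : ∃ P, P = p ^ Q.factorization p := ⟨_, rfl⟩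
  obtain ⟨Q', hQ'⟩ : ∃ Q', Q' = Q / p ^ Q.factorization p := ⟨_, rfl⟩
  have hPQ : P * Q' = Q := by
    rw [hP, hQ']
    exact Nat.ordProj_mul_ordCompl_eq_self Q p
  have hcop : Nat.Coprime P Q' := by
    rw [hP, hQ']
    exact (Nat.coprime_ordCompl hp hQ.ne').pow_left _
  have hQ'pos : 0 < Q' := Nat.pos_of_ne_zero (by
    rintro rfl
    simp at hPQ
    omega)
  have hcopd : ∀ d ∈ D, Nat.Coprime (p ^ d.factorization p) (d / p ^ d.factorization p) :=
    fun d hd => (Nat.coprime_ordCompl hp (hD0 d hd)).pow_left _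
  have hdd : ∀ d ∈ D, p ^ d.factorization p * (d / p ^ d.factorization p) = d :=
    fun d _ => Nat.ordProj_mul_ordCompl_eq_self d p
  have hdP : ∀ d ∈ D, p ^ d.factorization p ∣ P := by
    intro d hd
    rw [hP]
    exact Nat.pow_dvd_pow p (((Nat.factorization_le_iff_dvd (hD0 d hd) hQ.ne').2 (hD d hd)) p)
  have hdQ' : ∀ d ∈ D, d / p ^ d.factorization p ∣ Q' := by
    intro d hd
    rw [hQ']
    exact Nat.ordCompl_dvd_ordCompl_of_dvd (hD d hd) p
  have hex : ∀ d, ∃ k : ℕ, d ∈ D → (k ≡ 0 [MOD p ^ d.factorization p] ∧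
      k ≡ a d [MOD (d / p ^ d.factorization p)]) := by
    intro d
    by_cases hd : d ∈ D
    · exact ⟨(Nat.chineseRemainder (hcopd d hd) 0 (a d)).1,
        fun _ => (Nat.chineseRemainder (hcopd d hd) 0 (a d)).2⟩
    · exact ⟨0, fun h => absurd h hd⟩
  choose a' ha' using hex
  refine ⟨a', fun d hd => (Nat.modEq_zero_iff_dvd.1 (ha' d hd).1), fun d hd => (ha' d hd).2, ?_⟩
  have hmem' : ∀ d ∈ D, ∀ x, x ≡ a' d [MOD d] ↔
      (p ^ d.factorization p ∣ x ∧ x ≡ a d [MOD (d / p ^ d.factorization p)]) := by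
    intro d hd x
    obtain ⟨h1, h2⟩ := ha' d hd
    have h3 : x ≡ a' d [MOD d] ↔ x ≡ a' d [MOD p ^ d.factorization p] ∧
        x ≡ a' d [MOD (d / p ^ d.factorization p)] := by
      rw [Nat.modEq_and_modEq_iff_modEq_mul (hcopd d hd), hdd d hd]
    rw [h3]
    constructor
    · rintro ⟨h4, h5⟩
      exact ⟨Nat.modEq_zero_iff_dvd.1 (h4.trans h1), h5.trans h2⟩
    · rintro ⟨h4, h5⟩
      exact ⟨(Nat.modEq_zero_iff_dvd.2 h4).trans h1.symm, h5.trans h2.symm⟩
  have hmaps : ∀ b : ℕ → ℕ, ∀ x ∈ cov Q D b, x % Q' ∈ range Q' :=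
    fun b x _ => mem_range.2 (Nat.mod_lt _ hQ'pos)
  rw [card_eq_sum_card_fiberwise (hmaps a'), card_eq_sum_card_fiberwise (hmaps a)]
  apply sum_le_sum
  intro y hy
  by_cases hne : ((D.filter fun d => y ≡ a d [MOD (d / p ^ d.factorization p)])).Nonempty
  · obtain ⟨e, he, hmin⟩ := exists_min_image _ (fun d => d.factorization p) hne
    rw [mem_filter] at he
    obtain ⟨heD, hey⟩ := he
    obtain ⟨c, hc⟩ : ∃ c : ℕ, c ≡ a e [MOD P] ∧ c ≡ 0 [MOD Q'] :=
      ⟨(Nat.chineseRemainder hcop (a e) 0).1, (Nat.chineseRemainder hcop (a e) 0).2⟩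
    obtain ⟨hc1, hc2⟩ := hc
    apply card_le_card_of_injOn (fun x => (x + c) % Q)
    · intro x hx
      simp only [coe_filter, Set.mem_ofPred_eq, mem_cov] at hx ⊢
      obtain ⟨⟨hxQ, d, hd, hxd⟩, hxy⟩ := hx
      obtain ⟨h1, h2⟩ := (hmem' d hd x).1 hxd
      have hyx : y ≡ x [MOD Q'] := by
        rw [← hxy]
        exact Nat.mod_modEq x Q'
      have hdmem : d ∈ D.filter fun d => y ≡ a d [MOD (d / p ^ d.factorization p)] := by
        rw [mem_filter]
        exact ⟨hd, (hyx.of_dvd (hdQ' d hd)).trans h2⟩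
      have h3 : p ^ e.factorization p ∣ x :=
        (Nat.pow_dvd_pow p (hmin d hdmem)).trans h1
      have hg : (x + c) % Q ≡ x + c [MOD Q] := Nat.mod_modEq _ _
      have hgQ' : (x + c) % Q ≡ x [MOD Q'] := by
        have h4 : (x + c) % Q ≡ x + c [MOD Q'] := hg.of_dvd ⟨P, by rw [← hPQ, mul_comm]⟩
        have h5 : x + c ≡ x + 0 [MOD Q'] := Nat.ModEq.add_left x hc2
        exact h4.trans h5
      have hgP : (x + c) % Q ≡ a e [MOD p ^ e.factorization p] := by
        have h4 : (x + c) % Q ≡ x + c [MOD p ^ e.factorization p] :=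
          hg.of_dvd ((hdP e heD).trans ⟨Q', hPQ.symm⟩)
        have h5 : x + c ≡ 0 + a e [MOD p ^ e.factorization p] :=
          Nat.ModEq.add (Nat.modEq_zero_iff_dvd.2 h3) (hc1.of_dvd (hdP e heD))
        rw [zero_add] at h5
        exact h4.trans h5
      refine ⟨⟨Nat.mod_lt _ hQ, e, heD, ?_⟩, ?_⟩
      · have h6 : (x + c) % Q ≡ a e [MOD (e / p ^ e.factorization p)] :=
          ((hgQ'.trans hyx.symm).of_dvd (hdQ' e heD)).trans hey
        have h7 := (Nat.modEq_and_modEq_iff_modEq_mul (hcopd e heD)).1 ⟨hgP, h6⟩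
        rwa [hdd e heD] at h7
      · have h6 : (x + c) % Q % Q' = x % Q' := hgQ'
        rw [h6, hxy]
    · intro x hx x' hx' h
      simp only [coe_filter, Set.mem_ofPred_eq, mem_cov] at hx hx'
      have h1 : x + c ≡ x' + c [MOD Q] := h
      have h2 : x ≡ x' [MOD Q] := Nat.ModEq.add_right_cancel' c h1
      exact Nat.ModEq.eq_of_lt_of_lt h2 hx.1.1 hx'.1.1
  · have hempty : (cov Q D a').filter (fun x => x % Q' = y) = ∅ := by
      rw [filter_eq_empty_iff]
      intro x hx hxy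
      apply hne
      obtain ⟨-, d, hd, hxd⟩ := mem_cov.1 hx
      obtain ⟨h1, h2⟩ := (hmem' d hd x).1 hxd
      have hyx : y ≡ x [MOD Q'] := by
        rw [← hxy]
        exact Nat.mod_modEq x Q'
      refine ⟨d, ?_⟩
      rw [mem_filter]
      exact ⟨hd, (hyx.of_dvd (hdQ' d hd)).trans h2⟩
    rw [hempty, card_empty]
    exact Nat.zero_le _

/-- Rogers: the number of integers covered by residue classes with moduli in `D` is at least the
number of integers with a divisor in `D`. -/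
theorem rogers {Q : ℕ} (hQ : 0 < Q) {D : Finset ℕ} (hD : ∀ d ∈ D, d ∣ Q) (a : ℕ → ℕ) :
    ((range Q).filter fun x => ∃ d ∈ D, d ∣ x).card ≤ (cov Q D a).card := by
  have hD0 : ∀ d ∈ D, d ≠ 0 := by
    rintro d hd rfl
    exact hQ.ne' (Nat.eq_zero_of_zero_dvd (hD 0 hd))
  have key : ∀ S : Finset ℕ, (∀ p ∈ S, p.Prime) → ∃ a' : ℕ → ℕ,
      (∀ d ∈ D, ∀ p ∈ S, p ^ d.factorization p ∣ a' d) ∧
        (cov Q D a').card ≤ (cov Q D a).card := by
    intro S
    induction S using Finset.induction_on with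
    | empty => exact fun _ => ⟨a, by simp, le_rfl⟩
    | insert p S hpS ih =>
        intro hS
        obtain ⟨b, hb1, hb2⟩ := ih fun q hq => hS q (mem_insert_of_mem hq)
        have hp := hS p (mem_insert_self _ _)
        obtain ⟨b', h1, h2, h3⟩ := cov_step hQ hD b hp
        refine ⟨b', ?_, h3.trans hb2⟩
        intro d hd q hq
        rcases mem_insert.1 hq with rfl | hqS
        · exact h1 d hd
        · have hqp : q ≠ p := by
            rintro rfl
            exact hpS hqS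
          have hqprime := hS q hq
          have h4 : q ^ d.factorization q ∣ d / p ^ d.factorization p := by
            have h5 : q ^ d.factorization q ∣
                p ^ d.factorization p * (d / p ^ d.factorization p) := by
              rw [Nat.ordProj_mul_ordCompl_eq_self d p]
              exact Nat.ordProj_dvd d q
            have h6 : Nat.Coprime (q ^ d.factorization q) (p ^ d.factorization p) :=
              ((Nat.coprime_primes hqprime hp).2 hqp).pow _ _
            exact h6.dvd_of_dvd_mul_left h5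
          exact Nat.modEq_zero_iff_dvd.1 (((h2 d hd).of_dvd h4).trans
            (Nat.modEq_zero_iff_dvd.2 (hb1 d hd q hqS)))
  obtain ⟨b, hb1, hb2⟩ := key Q.primeFactors fun p hp => Nat.prime_of_mem_primeFactors hp
  refine le_trans (card_le_card ?_) hb2
  intro x hx
  rw [mem_filter, mem_range] at hx
  obtain ⟨hxQ, d, hd, hdx⟩ := hx
  rw [mem_cov]
  refine ⟨hxQ, d, hd, ?_⟩
  have h1 : d ∣ b d := by
    rw [Nat.dvd_iff_prime_pow_dvd_dvd]
    intro p k hp hk
    by_cases hk0 : k = 0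
    · rw [hk0, pow_zero]
      exact one_dvd _
    · have h2 : p ∣ d := (dvd_pow_self p hk0).trans hk
      have h3 : p ∈ Q.primeFactors := by
        rw [Nat.mem_primeFactors]
        exact ⟨hp, h2.trans (hD d hd), hQ.ne'⟩
      have h4 : k ≤ d.factorization p := (hp.pow_dvd_iff_le_factorization (hD0 d hd)).1 hk
      exact (Nat.pow_dvd_pow p h4).trans (hb1 d hd p h3)
  exact (Nat.modEq_zero_iff_dvd.2 hdx).trans (Nat.modEq_zero_iff_dvd.2 h1).symm

end Pool.Agent.Lib.H21AP
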