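import Pool.Agent.Lib.H21AP.Rogers

/-!
# Sets containing long progressions of all small differences
-/

namespace Pool.Agent.Lib.H21AP

open Finset

/-- For every `d ∈ {1, …, N}` the set `A` contains a `k`-term arithmetic progression with common
difference `d`. -/
def HasAPs (N k : ℕ) (A : Finset ℕ) : Prop :=
  ∀ d, 1 ≤ d → d ≤ N → ∃ a, ∀ j < k, a + j * d ∈ A

/-- The least cardinality `m(N, k)` of a finite set of natural numbers that contains, for every
`d ∈ {1, …, N}`, a `k`-term arithmetic progression with common difference `d`. -/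
noncomputable def minCard (N k : ℕ) : ℕ := sInf {c | ∃ A : Finset ℕ, HasAPs N k A ∧ A.card = c}

/-- The number of distinct products `a b` with `1 ≤ a ≤ N` and `0 ≤ b < k`. -/
def table (N k : ℕ) : ℕ := ((Icc 1 N ×ˢ range k).image fun q => q.1 * q.2).card

/-- The least common multiple of `1, …, N`. -/
def lcmTo (N : ℕ) : ℕ := (Icc 1 N).lcm id

/-- The largest divisor of `x` that is at most `N`. -/
def largestDiv (N x : ℕ) : ℕ := ((Icc 1 N).filter fun d => d ∣ x).sup id

theorem lcmTo_pos (N : ℕ) : 0 < lcmTo N := by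
  rw [lcmTo, Nat.pos_iff_ne_zero, Ne, Finset.lcm_eq_zero_iff]
  simp

theorem dvd_lcmTo {N d : ℕ} (h1 : 1 ≤ d) (h2 : d ≤ N) : d ∣ lcmTo N :=
  Finset.dvd_lcm (f := id) (mem_Icc.2 ⟨h1, h2⟩)

theorem le_largestDiv {N x d : ℕ} (h1 : 1 ≤ d) (h2 : d ≤ N) (hd : d ∣ x) : d ≤ largestDiv N x :=
  Finset.le_sup (f := id) (mem_filter.2 ⟨mem_Icc.2 ⟨h1, h2⟩, hd⟩)

theorem largestDiv_spec {N : ℕ} (hN : 1 ≤ N) (x : ℕ) :
    1 ≤ largestDiv N x ∧ largestDiv N x ≤ N ∧ largestDiv N x ∣ x := by
  have hne : ((Icc 1 N).filter fun d => d ∣ x).Nonempty :=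
    ⟨1, mem_filter.2 ⟨mem_Icc.2 ⟨le_rfl, hN⟩, one_dvd x⟩⟩
  obtain ⟨d, hd, hd'⟩ := Finset.exists_mem_eq_sup _ hne (id : ℕ → ℕ)
  rw [mem_filter, mem_Icc] at hd
  have h : largestDiv N x = d := hd'
  rw [h]
  exact ⟨hd.1.1, hd.1.2, hd.2⟩

theorem hasAPs_table (N k : ℕ) :
    HasAPs N k ((Icc 1 N ×ˢ range k).image fun q => q.1 * q.2) := by
  intro d h1 h2
  refine ⟨0, fun j hj => ?_⟩
  rw [mem_image]
  exact ⟨(d, j), mem_product.2 ⟨mem_Icc.2 ⟨h1, h2⟩, mem_range.2 hj⟩, by simp [mul_comm]⟩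

theorem minCard_le_table (N k : ℕ) : minCard N k ≤ table N k :=
  Nat.sInf_le ⟨_, hasAPs_table N k, rfl⟩

theorem exists_minCard (N k : ℕ) : ∃ A : Finset ℕ, HasAPs N k A ∧ A.card = minCard N k := by
  have h : minCard N k ∈ {c | ∃ A : Finset ℕ, HasAPs N k A ∧ A.card = c} :=
    Nat.sInf_mem ⟨_, _, hasAPs_table N k, rfl⟩
  exact h

/-- The upper bound for the multiplication table. -/
theorem table_le (N k : ℕ) :
    table N k ≤ ∑ x ∈ range (lcmTo N), (largestDiv N x * (k - 1) / lcmTo N + 1) := by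
  have hQ := lcmTo_pos N
  rw [table, card_eq_sum_card_fiberwise (f := fun x => x % lcmTo N) (t := range (lcmTo N))
    (fun x _ => mem_range.2 (Nat.mod_lt _ hQ))]
  apply sum_le_sum
  intro ρ hρ
  have h1 : (((Icc 1 N ×ˢ range k).image fun q => q.1 * q.2).filter
      fun x => x % lcmTo N = ρ).card ≤
      (range (largestDiv N ρ * (k - 1) / lcmTo N + 1)).card := by
    apply card_le_card_of_injOn (fun x => x / lcmTo N)
    · intro x hx
      simp only [coe_filter, Set.mem_ofPred_eq, mem_image, mem_product, mem_Icc, mem_range,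
        Prod.exists] at hx
      obtain ⟨⟨d, j, ⟨⟨hd1, hd2⟩, hj⟩, rfl⟩, hxρ⟩ := hx
      simp only [coe_range, Set.mem_Iio]
      have h2 : d ∣ ρ := by
        rw [← hxρ]
        exact (Nat.dvd_mod_iff (dvd_lcmTo hd1 hd2)).2 (dvd_mul_right d j)
      have h3 := le_largestDiv hd1 hd2 h2
      have h4 : d * j ≤ largestDiv N ρ * (k - 1) := Nat.mul_le_mul h3 (by omega)
      exact Nat.lt_succ_of_le (Nat.div_le_div_right h4)
    · intro x hx y hy hxy
      simp only [coe_filter, Set.mem_ofPred_eq] at hx hy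
      have h2 := Nat.div_add_mod x (lcmTo N)
      have h3 := Nat.div_add_mod y (lcmTo N)
      have h4 : x / lcmTo N = y / lcmTo N := hxy
      rw [← h2, ← h3, h4, hx.2, hy.2]
  rwa [card_range] at h1

/-- The lower bound for every set. -/
theorem card_ge {N k : ℕ} (hN : 1 ≤ N) {A : Finset ℕ} (hA : HasAPs N k A) :
    ∑ x ∈ range (lcmTo N), (largestDiv N x * (k - 1) / lcmTo N - 1) ≤ A.card := by
  classical
  rcases Nat.eq_zero_or_pos k with hk | hk
  · have h0 : ∑ x ∈ range (lcmTo N), (largestDiv N x * (k - 1) / lcmTo N - 1) = 0 := by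
      apply sum_eq_zero
      intro x _
      rw [hk]
      simp
    rw [h0]
    exact Nat.zero_le _
  have hQ := lcmTo_pos N
  obtain ⟨Q, hQdef⟩ : ∃ Q, Q = lcmTo N := ⟨_, rfl⟩
  rw [← hQdef] at hQ ⊢
  have hex : ∀ d, ∃ s, 1 ≤ d → d ≤ N → ∀ j < k, s + j * d ∈ A := by
    intro d
    by_cases h : 1 ≤ d ∧ d ≤ N
    · obtain ⟨s, hs⟩ := hA d h.1 h.2
      exact ⟨s, fun _ _ => hs⟩
    · exact ⟨0, fun h1 h2 => absurd ⟨h1, h2⟩ h⟩
  choose s hs using hex
  -- the differences whose progression covers the block `i`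
  obtain ⟨D, hD⟩ : ∃ D : ℕ → Finset ℕ, D = fun i => (Icc 1 N).filter fun d =>
      s d ≤ Q * i ∧ Q * i + Q ≤ s d + d * (k - 1) + 1 := ⟨_, rfl⟩
  obtain ⟨I, hI⟩ : ∃ I, I = ∑ d ∈ Icc 1 N, (s d + 1 + d * k) := ⟨_, rfl⟩
  -- each block
  have hblock : ∀ i, ((range Q).filter fun x => ∃ d ∈ D i, d ∣ x).card ≤
      (A.filter fun x => x / Q = i).card := by
    intro i
    have h1 := rogers hQ (D := D i) (by
      intro d hd
      rw [hD, mem_filter, mem_Icc] at hd
      rw [hQdef]
      exact dvd_lcmTo hd.1.1 hd.1.2) s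
    refine h1.trans ?_
    apply card_le_card_of_injOn (fun x => Q * i + x)
    · intro x hx
      rw [mem_coe, mem_cov] at hx
      obtain ⟨hxQ, d, hd, hxd⟩ := hx
      rw [hD, mem_filter, mem_Icc] at hd
      obtain ⟨⟨hd1, hd2⟩, h2, h3⟩ := hd
      simp only [coe_filter, Set.mem_ofPred_eq]
      constructor
      · have hdQ : d ∣ Q := by
          rw [hQdef]
          exact dvd_lcmTo hd1 hd2
        have h4 : s d ≡ Q * i + x [MOD d] := by
          have h5 : Q * i + x ≡ 0 + s d [MOD d] :=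
            Nat.ModEq.add (Nat.modEq_zero_iff_dvd.2 (hdQ.mul_right i)) hxd
          rw [zero_add] at h5
          exact h5.symm
        have h6 : s d ≤ Q * i + x := h2.trans (Nat.le_add_right _ _)
        obtain ⟨j, hj⟩ := (Nat.modEq_iff_dvd' h6).1 h4
        have h7 : Q * i + x = s d + j * d := by
          rw [mul_comm j d, ← hj]
          omega
        rw [h7]
        apply hs d hd1 hd2
        by_contra hcon
        have h8 : k ≤ j := not_lt.1 hcon
        have h9 : d * k ≤ d * j := Nat.mul_le_mul_left d h8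
        have h10 : d * (k - 1) + d = d * k := by
          rw [← Nat.mul_succ, Nat.succ_eq_add_one, Nat.sub_add_cancel hk]
        rw [mul_comm j d] at h7
        omega
      · rw [Nat.mul_add_div hQ, Nat.div_eq_of_lt hxQ, add_zero]
    · intro x _ y _ hxy
      have h2 : Q * i + x = Q * i + y := hxy
      omega
  have hsum : ∑ i ∈ range I, (A.filter fun x => x / Q = i).card ≤ A.card := by
    have h1 : ∑ i ∈ range I, (A.filter fun x => x / Q = i).card =
        (A.filter fun x => x / Q ∈ range I).card := by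
      rw [card_eq_sum_card_fiberwise (s := A.filter fun x => x / Q ∈ range I)
        (f := fun x => x / Q) (t := range I) (fun x hx => (mem_filter.1 hx).2)]
      apply sum_congr rfl
      intro i hi
      congr 1
      ext x
      simp only [mem_filter]
      constructor
      · rintro ⟨h1, h2⟩
        exact ⟨⟨h1, by rw [h2]; exact hi⟩, h2⟩
      · rintro ⟨⟨h1, -⟩, h2⟩
        exact ⟨h1, h2⟩
    rw [h1]
    exact card_filter_le _ _
  -- count the pairs the other way
  have hswap : ∑ i ∈ range I, ((range Q).filter fun x => ∃ d ∈ D i, d ∣ x).card =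
      ∑ x ∈ range Q, ((range I).filter fun i => ∃ d ∈ D i, d ∣ x).card := by
    simp only [card_filter]
    exact sum_comm
  have hcount : ∀ x ∈ range Q, largestDiv N x * (k - 1) / Q - 1 ≤
      ((range I).filter fun i => ∃ d ∈ D i, d ∣ x).card := by
    intro x _
    obtain ⟨h1, h2, h3⟩ := largestDiv_spec hN x
    obtain ⟨d, hd⟩ : ∃ d, d = largestDiv N x := ⟨_, rfl⟩
    rw [← hd] at h1 h2 h3 ⊢
    have h4 : (range (d * (k - 1) / Q - 1)).card ≤
        ((range I).filter fun i => ∃ d ∈ D i, d ∣ x).card := by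
      apply card_le_card_of_injOn (fun i => s d / Q + 1 + i)
      · intro i hi
        simp only [coe_range, Set.mem_Iio] at hi
        simp only [coe_filter, Set.mem_ofPred_eq, mem_range]
        have hmod := Nat.div_add_mod (s d) Q
        have hlt := Nat.mod_lt (s d) hQ
        have hi' : i + 2 ≤ d * (k - 1) / Q := by omega
        have h5 : Q * (i + 2) ≤ d * (k - 1) :=
          (Nat.mul_le_mul_left Q hi').trans (Nat.mul_div_le _ _)
        have h6 : d * (k - 1) ≤ d * k := Nat.mul_le_mul_left d (Nat.sub_le k 1)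
        constructor
        · have h7 : s d + 1 + d * k ≤ I := by
            rw [hI]
            exact single_le_sum (f := fun d => s d + 1 + d * k) (fun _ _ => Nat.zero_le _)
              (mem_Icc.2 ⟨h1, h2⟩)
          have h8 : s d / Q ≤ s d := Nat.div_le_self _ _
          have h9 : i + 2 ≤ Q * (i + 2) := Nat.le_mul_of_pos_left _ hQ
          omega
        · refine ⟨d, ?_, h3⟩
          rw [hD, mem_filter, mem_Icc]
          refine ⟨⟨h1, h2⟩, ?_, ?_⟩
          · have e1 : Q * (s d / Q + 1 + i) = Q * (s d / Q) + Q + Q * i := by ring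
            rw [e1]
            omega
          · have e1 : Q * (s d / Q + 1 + i) = Q * (s d / Q) + Q + Q * i := by ring
            have e2 : Q * (i + 2) = Q * i + Q + Q := by ring
            rw [e1]
            omega
      · intro i _ j _ hij
        have : s d / Q + 1 + i = s d / Q + 1 + j := hij
        omega
    rwa [card_range] at h4
  calc ∑ x ∈ range Q, (largestDiv N x * (k - 1) / Q - 1)
      ≤ ∑ x ∈ range Q, ((range I).filter fun i => ∃ d ∈ D i, d ∣ x).card := sum_le_sum hcount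
    _ = ∑ i ∈ range I, ((range Q).filter fun x => ∃ d ∈ D i, d ∣ x).card := hswap.symm
    _ ≤ ∑ i ∈ range I, (A.filter fun x => x / Q = i).card := sum_le_sum fun i _ => hblock i
    _ ≤ A.card := hsum

theorem table_le_minCard {N : ℕ} (hN : 1 ≤ N) (k : ℕ) :
    table N k ≤ minCard N k + 2 * lcmTo N := by
  obtain ⟨A, hA, hAc⟩ := exists_minCard N k
  have h1 := card_ge hN hA
  have h2 := table_le N k
  rw [← hAc]
  have h3 : ∑ x ∈ range (lcmTo N), (largestDiv N x * (k - 1) / lcmTo N + 1) ≤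
      ∑ x ∈ range (lcmTo N), ((largestDiv N x * (k - 1) / lcmTo N - 1) + 2) := by
    apply sum_le_sum
    intro x _
    omega
  have h4 : ∑ x ∈ range (lcmTo N), ((largestDiv N x * (k - 1) / lcmTo N - 1) + 2) =
      ∑ x ∈ range (lcmTo N), (largestDiv N x * (k - 1) / lcmTo N - 1) + lcmTo N * 2 := by
    rw [sum_add_distrib, sum_const, card_range, smul_eq_mul]
  rw [h4] at h3
  omega

/-- The mean value, over the integers, of the largest divisor not exceeding `N`. -/
noncomputable def meanDiv (N : ℕ) : ℝ := (∑ x ∈ range (lcmTo N), (largestDiv N x : ℝ)) / lcmTo N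

theorem table_le_real (N : ℕ) {k : ℕ} (hk : 1 ≤ k) :
    (table N k : ℝ) ≤ meanDiv N * (k - 1) + lcmTo N := by
  have hQ : (0 : ℝ) < lcmTo N := by exact_mod_cast lcmTo_pos N
  have h1 : (table N k : ℝ) ≤
      ∑ x ∈ range (lcmTo N), ((largestDiv N x : ℝ) * (k - 1) / lcmTo N + 1) := by
    have h2 : (table N k : ℝ) ≤
        ((∑ x ∈ range (lcmTo N), (largestDiv N x * (k - 1) / lcmTo N + 1) : ℕ) : ℝ) := by
      exact_mod_cast table_le N k
    refine h2.trans ?_
    push_cast
    apply sum_le_sum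
    intro x _
    have h3 : (((largestDiv N x * (k - 1) / lcmTo N : ℕ)) : ℝ) ≤
        ((largestDiv N x * (k - 1) : ℕ) : ℝ) / lcmTo N := Nat.cast_div_le
    rw [Nat.cast_mul, Nat.cast_sub hk, Nat.cast_one] at h3
    linarith
  rw [sum_add_distrib, sum_const, card_range, nsmul_eq_mul, mul_one, ← sum_div,
    ← sum_mul] at h1
  rw [meanDiv]
  have h4 : (∑ x ∈ range (lcmTo N), (largestDiv N x : ℝ)) * ((k : ℝ) - 1) / lcmTo N =
      (∑ x ∈ range (lcmTo N), (largestDiv N x : ℝ)) / lcmTo N * (k - 1) := by ring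
  rwa [h4] at h1

theorem minCard_ge_real {N : ℕ} (hN : 1 ≤ N) {k : ℕ} (hk : 1 ≤ k) :
    meanDiv N * (k - 1) - 2 * lcmTo N ≤ (minCard N k : ℝ) := by
  have hQ : (0 : ℝ) < lcmTo N := by exact_mod_cast lcmTo_pos N
  obtain ⟨A, hA, hAc⟩ := exists_minCard N k
  have h1 := card_ge hN hA
  rw [hAc] at h1
  have h2 : ∑ x ∈ range (lcmTo N), ((largestDiv N x : ℝ) * (k - 1) / lcmTo N - 2) ≤
      (minCard N k : ℝ) := by
    have h3 : ((∑ x ∈ range (lcmTo N), (largestDiv N x * (k - 1) / lcmTo N - 1) : ℕ) : ℝ) ≤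
        (minCard N k : ℝ) := by exact_mod_cast h1
    refine le_trans ?_ h3
    push_cast
    apply sum_le_sum
    intro x _
    have h4 : largestDiv N x * (k - 1) < lcmTo N * (largestDiv N x * (k - 1) / lcmTo N + 1) :=
      Nat.lt_mul_div_succ _ (lcmTo_pos N)
    have h5 : largestDiv N x * (k - 1) / lcmTo N + 1 ≤
        (largestDiv N x * (k - 1) / lcmTo N - 1) + 2 := by omega
    have h6 : ((largestDiv N x * (k - 1) : ℕ) : ℝ) ≤
        lcmTo N * (((largestDiv N x * (k - 1) / lcmTo N - 1 : ℕ) : ℝ) + 2) := by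
      have h7 : largestDiv N x * (k - 1) ≤
          lcmTo N * ((largestDiv N x * (k - 1) / lcmTo N - 1) + 2) :=
        h4.le.trans (Nat.mul_le_mul_left _ h5)
      exact_mod_cast h7
    rw [Nat.cast_mul, Nat.cast_sub hk, Nat.cast_one] at h6
    have h8 : (largestDiv N x : ℝ) * (k - 1) / lcmTo N ≤
        ((largestDiv N x * (k - 1) / lcmTo N - 1 : ℕ) : ℝ) + 2 := by
      rw [div_le_iff₀ hQ]
      linarith
    linarith
  rw [sum_sub_distrib, sum_const, card_range, nsmul_eq_mul, ← sum_div, ← sum_mul] at h2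
  rw [meanDiv]
  have h4 : (∑ x ∈ range (lcmTo N), (largestDiv N x : ℝ)) * ((k : ℝ) - 1) / lcmTo N =
      (∑ x ∈ range (lcmTo N), (largestDiv N x : ℝ)) / lcmTo N * (k - 1) := by ring
  rw [h4] at h2
  linarith

end Pool.Agent.Lib.H21AP
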